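import Pool.Agent.H91.OC.CoreA
import Pool.Agent.H91.OC.Pos

set_option autoImplicit false

/-!
# From the two contraction bounds to the lower bound and to positivity
-/

namespace Pool.Agent.H91.OE

open Pool.Agent.H61.YP Pool.Agent.H8.RG Pool.Agent.H91.OC
open scoped BigOperators RealInnerProductSpace

variable {n : ℕ}

theorem key_gen {w : Fin n → Fin n → Fin n → Fin n → ℝ} (h : IsCurv w)
    (hpos : ∀ x v : Fin n → ℝ,
      0 ≤ ∑ j, ∑ k, v j * v k * (∑ i, ∑ l, x i * x l * w i j k l))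
    (q : ℕ) (ω : Form n (q + 2)) (U a : ℝ) (ha : 0 ≤ a) (hmu : 0 ≤ 3 + a * ((q : ℝ) - 1))
    (hid : ((q : ℝ) + 1) * a + U * (3 + a * ((q : ℝ) - 1)) = (q : ℝ) + 1)
    (hB : 3 * (U * QA w ω) ≤ rA w ω) :
    0 ≤ 3 * (rA w ω - ((q : ℝ) + 1) * QA w ω) + a * (scalA w * ip ω ω) := by
  have hA := coreA h hpos ω
  have e1 := mul_le_mul_of_nonneg_left hA ha
  have e2 := mul_le_mul_of_nonneg_left hB hmu
  have e3 : a * (3 * (((q : ℝ) + 1) * QA w ω)) + (3 + a * ((q : ℝ) - 1)) * (3 * (U * QA w ω))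
      = 3 * ((((q : ℝ) + 1) * a + U * (3 + a * ((q : ℝ) - 1))) * QA w ω) := by ring
  rw [hid] at e3
  nlinarith [e1, e2, e3]

/-- the lower bound for the curvature tensor from the inequality in components -/
theorem lower_gen (k q : ℕ) (hn : n = k + q + 2) (a : ℝ)
    (key : ∀ w : Fin n → Fin n → Fin n → Fin n → ℝ, IsCurv w →
      (∀ x v : Fin n → ℝ, 0 ≤ ∑ j, ∑ k, v j * v k * (∑ i, ∑ l, x i * x l * w i j k l)) →
      ∀ ω : Form n (q + 2),
        0 ≤ 3 * (rA w ω - ((q : ℝ) + 1) * QA w ω) + a * (scalA w * ip ω ω))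
    (R : CurvTensor n) (c : ℝ) (hc : SecGe R c) (ω : Form n (q + 2)) :
    ((q : ℝ) + 2) * (((k : ℝ) * c
      - a / 3 * (R.scal - (n : ℝ) * (n - 1) * c)) * ip ω ω) ≤ R.weitzForm ω := by
  have h' := R.sec_ext c hc
  have hc' := key _ (R.wA_isCurv c) (R.wA_pos c h') ω
  rw [CurvTensor.rA_wA, CurvTensor.QA_wA, CurvTensor.scalA_wA, ← CurvTensor.scal_eq] at hc'
  rw [CurvTensor.weitzForm_comp]
  have hq0 : (0 : ℝ) ≤ (q : ℝ) := Nat.cast_nonneg q
  apply mul_le_mul_of_nonneg_left _ (by linarith : (0 : ℝ) ≤ (q : ℝ) + 2)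
  have hnr : (n : ℝ) = k + q + 2 := by rw [hn]; push_cast; ring
  have h3 : ((k : ℝ) * c) * ip ω ω = c * (((n : ℝ) - 1) * ip ω ω)
      - ((q : ℝ) + 1) * (c * ip ω ω) := by
    rw [hnr]; ring
  nlinarith [hc', h3]

/-- positivity from the lower bound and a comparison of constants -/
theorem pos_gen (k q : ℕ) (hk1 : 1 ≤ k) (hn : n = k + q + 2) (a κ : ℝ)
    (hκ0 : 0 ≤ κ) (hκ1 : κ * ((n : ℝ) * (n - 1)) < 1)
    (hκ : a * (1 - κ * ((n : ℝ) * (n - 1))) ≤ 3 * k * κ)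
    (lower : ∀ (R : CurvTensor n) (c : ℝ), SecGe R c → ∀ ω : Form n (q + 2),
      ((q : ℝ) + 2) * (((k : ℝ) * c
        - a / 3 * (R.scal - (n : ℝ) * (n - 1) * c)) * ip ω ω) ≤ R.weitzForm ω)
    (R : CurvTensor n) (h : SecGt R (κ * R.scal)) (ω : Form n (q + 2)) (hω : ω ≠ 0) :
    0 < R.weitzForm ω := by
  have hn2 : 2 ≤ n := by omega
  obtain ⟨c, hc, hmin⟩ := R.exists_min hn2 _ h
  have h1 := lower R c hmin ω
  refine lt_of_lt_of_le ?_ h1
  have h2 := CurvTensor.ip_pos ω hω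
  have h3 := scal_ge R c hmin
  have hkr : (1 : ℝ) ≤ k := by exact_mod_cast hk1
  have hqr : (0 : ℝ) ≤ q := Nat.cast_nonneg q
  have hn1 : (0 : ℝ) ≤ (n : ℝ) * (n - 1) := by
    have : (2 : ℝ) ≤ n := by exact_mod_cast hn2
    nlinarith
  have hc0 : 0 < c := by
    have h4 : κ * ((n : ℝ) * (n - 1) * c) ≤ κ * R.scal := mul_le_mul_of_nonneg_left h3 hκ0
    have h5 : 0 < c * (1 - κ * ((n : ℝ) * (n - 1))) := by
      have : c * (1 - κ * ((n : ℝ) * (n - 1))) = c - κ * ((n : ℝ) * (n - 1) * c) := by ring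
      rw [this]
      have hc' : κ * R.scal < c := hc
      linarith
    exact pos_of_mul_pos_left h5 (by linarith)
  have hs0 : 0 ≤ R.scal - (n : ℝ) * (n - 1) * c := by linarith
  have h6 : 0 < (k : ℝ) * c - a / 3 * (R.scal - (n : ℝ) * (n - 1) * c) := by
    by_cases hs : R.scal - (n : ℝ) * (n - 1) * c = 0
    · rw [hs, mul_zero, sub_zero]
      positivity
    · have hs1 : 0 < R.scal - (n : ℝ) * (n - 1) * c := lt_of_le_of_ne hs0 (Ne.symm hs)
      have hc' : κ * R.scal < c := hc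
      have h7 : κ * (R.scal - (n : ℝ) * (n - 1) * c) < c * (1 - κ * ((n : ℝ) * (n - 1))) := by
        nlinarith
      have hden : 0 < 1 - κ * ((n : ℝ) * (n - 1)) := by linarith
      have h8 : a * (1 - κ * ((n : ℝ) * (n - 1)))
          * (R.scal - (n : ℝ) * (n - 1) * c)
          ≤ 3 * k * (κ * (R.scal - (n : ℝ) * (n - 1) * c)) := by
        have := mul_le_mul_of_nonneg_right hκ hs0
        linarith
      have h9 : 3 * k * (κ * (R.scal - (n : ℝ) * (n - 1) * c))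
          < 3 * k * (c * (1 - κ * ((n : ℝ) * (n - 1)))) :=
        mul_lt_mul_of_pos_left h7 (by linarith)
      have h10 : (a * (R.scal - (n : ℝ) * (n - 1) * c))
          * (1 - κ * ((n : ℝ) * (n - 1))) < (3 * k * c) * (1 - κ * ((n : ℝ) * (n - 1))) := by
        linarith
      have h11 := lt_of_mul_lt_mul_right h10 hden.le
      linarith
  have h12 : 0 < (q : ℝ) + 2 := by linarith
  positivity

/-- the statement of the sharp second contraction bound in degree `q + 2`, codegree `k` -/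
def SharpB (n k q : ℕ) : Prop :=
  ∀ w : Fin n → Fin n → Fin n → Fin n → ℝ, IsCurv w →
    (∀ x v : Fin n → ℝ, 0 ≤ ∑ j, ∑ k, v j * v k * (∑ i, ∑ l, x i * x l * w i j k l)) →
    ∀ ω : Form n (q + 2), 3 * (((q : ℝ) + 1) * QA w ω) ≤ ((k : ℝ) + 2) * rA w ω

theorem lower_sharp (k q : ℕ) (hk1 : 1 ≤ k) (hn : n = k + q + 2) (hS : SharpB n k q)
    (R : CurvTensor n) (c : ℝ) (hc : SecGe R c) (ω : Form n (q + 2)) :
    ((q : ℝ) + 2) * (((k : ℝ) * c
      - (((k : ℝ) - 1) / ((n : ℝ) - 1)) / 3 * (R.scal - (n : ℝ) * (n - 1) * c)) * ip ω ω)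
      ≤ R.weitzForm ω := by
  have hkr : (1 : ℝ) ≤ k := by exact_mod_cast hk1
  have hqr : (0 : ℝ) ≤ q := Nat.cast_nonneg q
  have hnr : (n : ℝ) = k + q + 2 := by rw [hn]; push_cast; ring
  have hn1 : (0 : ℝ) < (n : ℝ) - 1 := by linarith
  have hk2 : (0 : ℝ) < (k : ℝ) + 2 := by linarith
  have ha0 : 0 ≤ ((k : ℝ) - 1) / ((n : ℝ) - 1) := div_nonneg (by linarith) hn1.le
  have ha1 : ((k : ℝ) - 1) / ((n : ℝ) - 1) ≤ 1 := by
    rw [div_le_one hn1]; linarith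
  refine lower_gen k q hn _ (fun w h hpos ω => ?_) R c hc ω
  refine key_gen h hpos q ω (((q : ℝ) + 1) / ((k : ℝ) + 2)) _ ha0 (by nlinarith) ?_ ?_
  · rw [hnr]
    have : (k : ℝ) + q + 2 - 1 ≠ 0 := by linarith
    field_simp
    ring
  · have := hS w h hpos ω
    have e : 3 * (((q : ℝ) + 1) / ((k : ℝ) + 2) * QA w ω)
        = (3 * (((q : ℝ) + 1) * QA w ω)) / ((k : ℝ) + 2) := by ring
    rw [e, div_le_iff₀ hk2]
    linarith

/-- the threshold of degree `n - k` -/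
theorem pos_deg (k q : ℕ) (hk1 : 1 ≤ k) (hn : n = k + q + 2) (hS : SharpB n k q)
    (R : CurvTensor n)
    (h : SecGt R (((k : ℝ) - 1) / (((n : ℝ) - 1) * (n * ((k : ℝ) - 1) + 3 * k)) * R.scal))
    (ω : Form n (q + 2)) (hω : ω ≠ 0) : 0 < R.weitzForm ω := by
  have hkr : (1 : ℝ) ≤ k := by exact_mod_cast hk1
  have hqr : (0 : ℝ) ≤ q := Nat.cast_nonneg q
  have hnr : (n : ℝ) = k + q + 2 := by rw [hn]; push_cast; ring
  have hn1 : (0 : ℝ) < (n : ℝ) - 1 := by linarith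
  have hk3 : (0 : ℝ) < n * ((k : ℝ) - 1) + 3 * k := by
    have : (0 : ℝ) ≤ n * ((k : ℝ) - 1) := mul_nonneg (Nat.cast_nonneg n) (by linarith)
    linarith
  have hD : (0 : ℝ) < ((n : ℝ) - 1) * (n * ((k : ℝ) - 1) + 3 * k) := mul_pos hn1 hk3
  have e1 : 1 - ((k : ℝ) - 1) / (((n : ℝ) - 1) * (n * ((k : ℝ) - 1) + 3 * k))
      * ((n : ℝ) * (n - 1)) = (3 * k) / (n * ((k : ℝ) - 1) + 3 * k) := by
    have hX : (n : ℝ) * ((k : ℝ) - 1) = (n * ((k : ℝ) - 1) + 3 * k) - 3 * k := by ring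
    generalize hXd : (n : ℝ) * ((k : ℝ) - 1) + 3 * k = X at hk3 hX
    rw [eq_div_iff hk3.ne', sub_mul, one_mul]
    have e2 : ((k : ℝ) - 1) / (((n : ℝ) - 1) * X) * ((n : ℝ) * (n - 1)) * X
        = (n : ℝ) * ((k : ℝ) - 1) := by
      have := hn1.ne'
      have := hk3.ne'
      field_simp
    rw [e2, hX]
    ring
  refine pos_gen k q hk1 hn (((k : ℝ) - 1) / ((n : ℝ) - 1)) _
    (div_nonneg (by linarith) hD.le) ?_ ?_
    (fun R c hc ω => lower_sharp k q hk1 hn hS R c hc ω) R h ω hω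
  · have : 0 < (3 * (k : ℝ)) / (n * ((k : ℝ) - 1) + 3 * k) := by positivity
    linarith
  · rw [e1]
    apply le_of_eq
    field_simp

/-- the threshold which serves all degrees -/
theorem pos_kappa (k q : ℕ) (hk1 : 1 ≤ k) (hn : n = k + q + 2) (hS : SharpB n k q)
    (R : CurvTensor n)
    (h : SecGt R (((n : ℝ) - 3) / (((n : ℝ) - 1) * (n ^ 2 - 6)) * R.scal))
    (ω : Form n (q + 2)) (hω : ω ≠ 0) : 0 < R.weitzForm ω := by
  have hkr : (1 : ℝ) ≤ k := by exact_mod_cast hk1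
  have hqr : (0 : ℝ) ≤ q := Nat.cast_nonneg q
  have hnr : (n : ℝ) = k + q + 2 := by rw [hn]; push_cast; ring
  have hn3 : (3 : ℝ) ≤ n := by linarith
  have hn1 : (0 : ℝ) < (n : ℝ) - 1 := by linarith
  have h6 : (0 : ℝ) < (n : ℝ) ^ 2 - 6 := by nlinarith
  have hD : (0 : ℝ) < ((n : ℝ) - 1) * (n ^ 2 - 6) := mul_pos hn1 h6
  have e1 : 1 - ((n : ℝ) - 3) / (((n : ℝ) - 1) * (n ^ 2 - 6)) * ((n : ℝ) * (n - 1))
      = (3 * (n - 2)) / ((n : ℝ) ^ 2 - 6) := by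
    field_simp
    ring
  refine pos_gen k q hk1 hn (((k : ℝ) - 1) / ((n : ℝ) - 1)) _
    (div_nonneg (by linarith) hD.le) ?_ ?_
    (fun R c hc ω => lower_sharp k q hk1 hn hS R c hc ω) R h ω hω
  · have : 0 < (3 * ((n : ℝ) - 2)) / ((n : ℝ) ^ 2 - 6) := by
      apply div_pos _ h6
      linarith
    linarith
  · rw [e1, div_mul_div_comm, mul_div_assoc', div_le_div_iff₀ (by positivity) hD]
    have e2 : ((k : ℝ) - 1) * (n - 2) ≤ k * (n - 3) := by
      rw [hnr]; nlinarith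
    have e3 : (0 : ℝ) ≤ 3 * (((n : ℝ) - 1) * (n ^ 2 - 6)) := by positivity
    nlinarith [mul_le_mul_of_nonneg_right e2 e3]

end Pool.Agent.H91.OE
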